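import Pool.Agent.Q170.WD.St

set_option autoImplicit false

namespace Pool.Agent.Q198.WD

open MvPolynomial Pool.Agent.Q170.WD

/-- products of polynomials with bounded degrees -/
theorem prod_top {S ι : Type} [CommRing S] (s : Finset ι) (f : ι → Polynomial S) (n : ι → ℕ)
    (hn : ∀ i ∈ s, (f i).natDegree ≤ n i) :
    (∏ i ∈ s, f i).natDegree ≤ ∑ i ∈ s, n i ∧
      (∏ i ∈ s, f i).coeff (∑ i ∈ s, n i) = ∏ i ∈ s, (f i).coeff (n i) := by
  classical
  induction s using Finset.induction_on with
  | empty => simp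
  | insert a s ha ih =>
    obtain ⟨h1, h2⟩ := ih fun i hi => hn i (Finset.mem_insert_of_mem hi)
    have h3 := hn a (Finset.mem_insert_self a s)
    rw [Finset.prod_insert ha, Finset.sum_insert ha, Finset.prod_insert ha]
    refine ⟨Polynomial.natDegree_mul_le.trans (add_le_add h3 h1), ?_⟩
    rw [Polynomial.coeff_mul_add_eq_of_natDegree_le h3 h1, h2]

theorem lin_deg {S : Type} [CommRing S] (a b : S) (m : ℕ) :
    ((Polynomial.C a + Polynomial.C b * Polynomial.X) ^ m).natDegree ≤ m ∧
      ((Polynomial.C a + Polynomial.C b * Polynomial.X) ^ m).coeff m = b ^ m := by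
  have h1 : (Polynomial.C a + Polynomial.C b * Polynomial.X).natDegree ≤ 1 := by
    rw [add_comm]
    exact Polynomial.natDegree_linear_le
  have h2 : (Polynomial.C a + Polynomial.C b * Polynomial.X).coeff 1 = b := by
    simp [Polynomial.coeff_C]
  constructor
  · refine Polynomial.natDegree_pow_le.trans ?_
    calc m * (Polynomial.C a + Polynomial.C b * Polynomial.X).natDegree ≤ m * 1 := Nat.mul_le_mul_left m h1
      _ = m := mul_one m
  · have h3 := Polynomial.coeff_pow_of_natDegree_le (m := m) h1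
    rw [mul_one, h2] at h3
    exact h3

/-- the leading coefficient of `h(a + b T)` -/
theorem top_coeff {L S : Type} [Field L] [CommRing S] [Algebra L S] {n : ℕ} (h : MvPolynomial (Fin n) L)
    (a b : Fin n → S) :
    (aeval (fun j => Polynomial.C (a j) + Polynomial.C (b j) * Polynomial.X) h : Polynomial S).natDegree ≤
        h.totalDegree ∧
      (aeval (fun j => Polynomial.C (a j) + Polynomial.C (b j) * Polynomial.X) h : Polynomial S).coeff
        h.totalDegree = aeval b (homogeneousComponent h.totalDegree h) := by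
  classical
  set g : Fin n → Polynomial S := fun j => Polynomial.C (a j) + Polynomial.C (b j) * Polynomial.X with hg
  have hdeg : ∀ m ∈ h.support, m.degree ≤ h.totalDegree := fun m hm => by
    have := le_totalDegree hm
    rwa [Finsupp.degree_eq_sum, ← Finsupp.sum_fintype _ (fun _ e => e) (fun _ => rfl)]
  have hterm : ∀ m : Fin n →₀ ℕ, (∏ i, g i ^ m i).natDegree ≤ m.degree ∧
      (∏ i, g i ^ m i).coeff m.degree = ∏ i, b i ^ m i := fun m => by
    have := prod_top Finset.univ (fun i => g i ^ m i) (fun i => m i) (fun i _ => (lin_deg _ _ _).1)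
    rw [Finsupp.degree_eq_sum]
    refine ⟨this.1, this.2.trans (Finset.prod_congr rfl fun i _ => (lin_deg _ _ _).2)⟩
  rw [aeval_def, eval₂_eq']
  constructor
  · refine Polynomial.natDegree_sum_le_of_forall_le _ _ fun m hm => ?_
    refine Polynomial.natDegree_mul_le.trans ?_
    have h1 : (algebraMap L (Polynomial S) (coeff m h)).natDegree = 0 := by
      rw [Polynomial.algebraMap_apply]
      exact Polynomial.natDegree_C _
    rw [h1, zero_add]
    exact (hterm m).1.trans (hdeg m hm)
  · rw [Polynomial.finsetSum_coeff, homogeneousComponent_apply, map_sum, Finset.sum_filter]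
    refine Finset.sum_congr rfl fun m hm => ?_
    rw [Polynomial.algebraMap_apply, Polynomial.coeff_C_mul]
    by_cases hmd : m.degree = h.totalDegree
    · rw [if_pos hmd, aeval_monomial, Finsupp.prod_fintype _ _ (fun i => pow_zero _), ← (hterm m).2, hmd]
    · rw [if_neg hmd, Polynomial.coeff_eq_zero_of_natDegree_lt, mul_zero]
      exact lt_of_le_of_lt (hterm m).1 (lt_of_le_of_ne (hdeg m hm) hmd)

theorem top_ne {L : Type} [Field L] {n : ℕ} (h : MvPolynomial (Fin n) L) (h0 : h ≠ 0) :
    homogeneousComponent h.totalDegree h ≠ 0 := by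
  classical
  intro hh
  obtain ⟨m, hm, hm'⟩ : ∃ m ∈ h.support, m.degree = h.totalDegree := by
    have hne : h.support.Nonempty := support_nonempty.2 h0
    obtain ⟨m, hm, he⟩ := Finset.exists_mem_eq_sup h.support hne (fun s => s.degree)
    refine ⟨m, hm, ?_⟩
    rw [← he]
    unfold totalDegree
    refine Finset.sup_congr rfl fun s _ => ?_
    rw [Finsupp.degree_eq_sum, Finsupp.sum_fintype _ (fun _ e => e) (fun _ => rfl)]
  have h1 := coeff_homogeneousComponent h.totalDegree h m
  rw [hh, coeff_zero, if_pos hm'] at h1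
  exact (mem_support_iff.1 hm) h1.symm

/-- the elements `x_i T` are dependent -/
theorem exists_rel {L A : Type} [Field L] [CommRing A] [IsDomain A] [Algebra L A] (M d : ℕ)
    (x : Fin (M + 1) → A) (hd : Algebra.trdeg L A = (d : Cardinal)) (hM : d + 1 ≤ M) :
    ∃ c : MvPolynomial (Fin (M + 1)) L, c ≠ 0 ∧
      (aeval (fun i => Polynomial.C (x i) * Polynomial.X) c : Polynomial A) = 0 := by
  by_contra hc
  push Not at hc
  have hi : AlgebraicIndependent L (fun i => (Polynomial.C (x i) * Polynomial.X : Polynomial A)) := by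
    rw [algebraicIndependent_iff]
    intro p hp
    by_contra hp0
    exact hc p hp0 hp
  have h1 := hi.cardinalMk_le_trdeg
  have h2 : Algebra.trdeg L A + Algebra.trdeg A (Polynomial A) = Algebra.trdeg L (Polynomial A) :=
    _root_.trdeg_add_eq L A
  rw [← h2, Polynomial.trdeg_of_isDomain, hd, Cardinal.mk_fin] at h1
  have h3 : ((M + 1 : ℕ) : Cardinal) ≤ ((d + 1 : ℕ) : Cardinal) := by
    push_cast at h1 ⊢
    exact h1
  have h4 := Nat.cast_le.1 h3
  omega

theorem trdeg_int {L B A : Type} [Field L] [CommRing B] [CommRing A] [IsDomain A] [Algebra L B]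
    [Algebra L A] (f : B →ₐ[L] A) (hf : Function.Injective f) (hi : (f : B →+* A).IsIntegral) :
    Algebra.trdeg L B = Algebra.trdeg L A := by
  let _ : Algebra B A := (f : B →+* A).toAlgebra
  have : IsScalarTower L B A := IsScalarTower.of_algebraMap_eq fun x => (f.commutes x).symm
  have : FaithfulSMul B A := (faithfulSMul_iff_algebraMap_injective B A).2 hf
  have : Nontrivial B := f.toRingHom.domain_nontrivial
  have : Algebra.IsIntegral B A := ⟨hi⟩
  have : FaithfulSMul L B := (faithfulSMul_iff_algebraMap_injective L B).2 (algebraMap L B).injective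
  have h2 : Algebra.trdeg L B + Algebra.trdeg B A = Algebra.trdeg L A := _root_.trdeg_add_eq L B
  rw [← h2, _root_.trdeg_eq_zero (R := B) (A := A), add_zero]


/-- the projection is finite -/
theorem proj_int {L : Type} [Field L] {M : ℕ} (I : Ideal (MvPolynomial (Fin (M + 1)) L))
    (h : MvPolynomial (Fin (M + 1)) L) (hI : h ∈ I) (v : Fin (M + 1) → L) (hv0 : v 0 ≠ 0)
    (ht : eval v (homogeneousComponent h.totalDegree h) ≠ 0)
    (ψ : MvPolynomial (Fin M) L →ₐ[L] MvPolynomial (Fin (M + 1)) L)
    (hψ : ∀ i, ψ (X i) = X i.succ - C (v i.succ / v 0) * X 0) :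
    ((Ideal.Quotient.mk I).comp (ψ : MvPolynomial (Fin M) L →+* MvPolynomial (Fin (M + 1)) L)).IsIntegral := by
  set φ := (Ideal.Quotient.mk I).comp (ψ : MvPolynomial (Fin M) L →+* MvPolynomial (Fin (M + 1)) L) with hφ
  have hφC : ∀ a : L, φ (C a) = Ideal.Quotient.mk I (C a) := fun a => by
    have h1 : ψ (C a) = C a := by
      rw [← algebraMap_eq, ← algebraMap_eq, ψ.commutes]
    rw [hφ, RingHom.comp_apply, RingHom.coe_coe, h1]
  have hφX : ∀ i, φ (X i) = Ideal.Quotient.mk I (X i.succ - C (v i.succ / v 0) * X 0) := fun i => by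
    rw [hφ, RingHom.comp_apply, RingHom.coe_coe, hψ]
  set τ : MvPolynomial (Fin (M + 1)) L ⧸ I := Ideal.Quotient.mk I (C (v 0)⁻¹ * X 0) with hτ
  let a : Fin (M + 1) → MvPolynomial (Fin M) L := Fin.cases 0 (fun i => X i)
  let b : Fin (M + 1) → MvPolynomial (Fin M) L := fun j => C (v j)
  obtain ⟨h1, h2⟩ := top_coeff h a b
  set H : Polynomial (MvPolynomial (Fin M) L) :=
    aeval (fun j => Polynomial.C (a j) + Polynomial.C (b j) * Polynomial.X) h with hH
  have h0 : ∀ j, Ideal.Quotient.mk I (X j) = φ (a j) + φ (b j) * τ := fun j => by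
    refine Fin.cases ?_ (fun i => ?_) j
    · change _ = φ 0 + φ (C (v 0)) * τ
      rw [map_zero, zero_add, hφC, hτ, ← map_mul, ← mul_assoc, ← C_mul, mul_inv_cancel₀ hv0, C_1, one_mul]
    · change _ = φ (X i) + φ (C (v i.succ)) * τ
      rw [hφC, hφX, hτ, ← map_mul, ← map_add, ← mul_assoc, ← C_mul, ← div_eq_mul_inv, sub_add_cancel]
  have h3 : Polynomial.eval₂ φ τ H = 0 := by
    have h4 : ((Polynomial.eval₂RingHom φ τ).comp
        ((aeval (fun j => Polynomial.C (a j) + Polynomial.C (b j) * Polynomial.X) :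
          MvPolynomial (Fin (M + 1)) L →ₐ[L] Polynomial (MvPolynomial (Fin M) L)) :
            MvPolynomial (Fin (M + 1)) L →+* Polynomial (MvPolynomial (Fin M) L))) = Ideal.Quotient.mk I := by
      refine MvPolynomial.ringHom_ext (fun r => ?_) (fun j => ?_)
      · rw [RingHom.comp_apply, RingHom.coe_coe, aeval_C, Polynomial.algebraMap_apply, algebraMap_eq,
          Polynomial.coe_eval₂RingHom, Polynomial.eval₂_C, hφC]
      · rw [RingHom.comp_apply, RingHom.coe_coe, aeval_X, Polynomial.coe_eval₂RingHom, Polynomial.eval₂_add,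
          Polynomial.eval₂_mul, Polynomial.eval₂_C, Polynomial.eval₂_C, Polynomial.eval₂_X, ← h0]
    have h5 := RingHom.congr_fun h4 h
    rw [Ideal.Quotient.eq_zero_iff_mem.2 hI] at h5
    exact h5
  have h6 : H.coeff h.totalDegree = C (eval v (homogeneousComponent h.totalDegree h)) := by
    rw [h2]
    have h7 : ∀ p : MvPolynomial (Fin (M + 1)) L, aeval b p = C (eval v p) := fun p => by
      have h8 : ((aeval b : MvPolynomial (Fin (M + 1)) L →ₐ[L] MvPolynomial (Fin M) L) :
          MvPolynomial (Fin (M + 1)) L →+* MvPolynomial (Fin M) L) = C.comp (eval v) := by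
        refine MvPolynomial.ringHom_ext (fun r => ?_) (fun j => ?_)
        · rw [RingHom.coe_coe, aeval_C, RingHom.comp_apply, eval_C, algebraMap_eq]
        · rw [RingHom.coe_coe, aeval_X, RingHom.comp_apply, eval_X]
      exact RingHom.congr_fun h8 p
    exact h7 _
  have h9 : φ.IsIntegralElem τ := by
    refine ⟨Polynomial.C (C (eval v (homogeneousComponent h.totalDegree h))⁻¹) * H, ?_, ?_⟩
    · refine Polynomial.monic_of_natDegree_le_of_coeff_eq_one h.totalDegree ?_ ?_
      · refine Polynomial.natDegree_mul_le.trans ?_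
        rw [Polynomial.natDegree_C, zero_add]
        exact h1
      · rw [Polynomial.coeff_C_mul, h6, ← C_mul, inv_mul_cancel₀ ht, C_1]
    · rw [Polynomial.eval₂_mul, h3, mul_zero]
  have h10 : ∀ j, φ.IsIntegralElem (Ideal.Quotient.mk I (X j)) := fun j => by
    rw [h0]
    exact RingHom.IsIntegralElem.add _ (RingHom.isIntegralElem_map _)
      (RingHom.IsIntegralElem.mul _ (RingHom.isIntegralElem_map _) h9)
  intro x
  obtain ⟨p, rfl⟩ := Ideal.Quotient.mk_surjective x
  induction p using MvPolynomial.induction_on with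
  | C r =>
    rw [← hφC]
    exact RingHom.isIntegralElem_map _
  | add p q hp hq =>
    rw [map_add]
    exact RingHom.IsIntegralElem.add _ hp hq
  | mul_X p j hp =>
    rw [map_mul]
    exact RingHom.IsIntegralElem.mul _ hp (h10 j)


/-- the zeros of `I` on the kernel of a finite projection -/
theorem exists_zero {L : Type} [Field L] [IsAlgClosed L] {M N : ℕ} (I : Ideal (MvPolynomial (Fin N) L))
    (ψ : MvPolynomial (Fin M) L →ₐ[L] MvPolynomial (Fin N) L)
    (hi : ((Ideal.Quotient.mk I).comp (ψ : MvPolynomial (Fin M) L →+* MvPolynomial (Fin N) L)).IsIntegral)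
    (h0 : ∀ f ∈ I.comap ψ, eval 0 f = 0) : ∃ p ∈ zeros I, ∀ i, eval p (ψ (X i)) = 0 := by
  set φ := (Ideal.Quotient.mk I).comp (ψ : MvPolynomial (Fin M) L →+* MvPolynomial (Fin N) L) with hφ
  let _ : Algebra (MvPolynomial (Fin M) L) (MvPolynomial (Fin N) L ⧸ I) := φ.toAlgebra
  have : Algebra.IsIntegral (MvPolynomial (Fin M) L) (MvPolynomial (Fin N) L ⧸ I) := ⟨hi⟩
  have hsurj : Function.Surjective (eval (0 : Fin M → L)) := fun r => ⟨C r, eval_C r⟩
  have hmax : (RingHom.ker (eval (0 : Fin M → L))).IsMaximal := RingHom.ker_isMaximal_of_surjective _ hsurj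
  have hker : RingHom.ker (algebraMap (MvPolynomial (Fin M) L) (MvPolynomial (Fin N) L ⧸ I)) ≤
      RingHom.ker (eval (0 : Fin M → L)) := fun f hf => by
    have h1 : φ f = 0 := hf
    have h2 : ψ f ∈ I := Ideal.Quotient.eq_zero_iff_mem.1 h1
    exact h0 f h2
  obtain ⟨Q, hQ, hQc⟩ := Ideal.exists_ideal_over_maximal_of_isIntegral
    (S := MvPolynomial (Fin N) L ⧸ I) (RingHom.ker (eval (0 : Fin M → L))) hker
  have : IsDomain ((MvPolynomial (Fin N) L ⧸ I) ⧸ Q) := Ideal.Quotient.isDomain Q
  -- the constants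
  let k : L →+* (MvPolynomial (Fin N) L ⧸ I) ⧸ Q :=
    (Ideal.Quotient.mk Q).comp ((Ideal.Quotient.mk I).comp (C : L →+* MvPolynomial (Fin N) L))
  have hkφ : k.comp (eval (0 : Fin M → L)) = (Ideal.Quotient.mk Q).comp φ := by
    refine MvPolynomial.ringHom_ext (fun r => ?_) (fun i => ?_)
    · have h1 : ψ (C r) = C r := by
        rw [← algebraMap_eq, ← algebraMap_eq, ψ.commutes]
      change k (eval 0 (C r)) = Ideal.Quotient.mk Q (Ideal.Quotient.mk I (ψ (C r)))
      rw [h1, eval_C]
      rfl
    · change k (eval 0 (X i)) = Ideal.Quotient.mk Q (φ (X i))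
      have h1 : (X i : MvPolynomial (Fin M) L) ∈ RingHom.ker (eval (0 : Fin M → L)) := by
        rw [RingHom.mem_ker, eval_X]
        rfl
      rw [← hQc] at h1
      have h2 : φ (X i) ∈ Q := h1
      rw [Ideal.Quotient.eq_zero_iff_mem.2 h2, eval_X]
      exact map_zero k
  have hk : k.IsIntegral := by
    intro x
    obtain ⟨y, rfl⟩ := Ideal.Quotient.mk_surjective x
    obtain ⟨P, hP, hP0⟩ := hi y
    refine ⟨P.map (eval (0 : Fin M → L)), hP.map _, ?_⟩
    rw [Polynomial.eval₂_map, hkφ]
    have h1 := Polynomial.hom_eval₂ P φ (Ideal.Quotient.mk Q) y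
    rw [← h1, hP0, map_zero]
  obtain ⟨-, hks⟩ := IsAlgClosed.ringHom_bijective_of_isIntegral k hk
  have hkinj : Function.Injective k := k.injective
  choose p hp using fun j : Fin N => hks (Ideal.Quotient.mk Q (Ideal.Quotient.mk I (X j)))
  have hev : k.comp (eval p) = (Ideal.Quotient.mk Q).comp (Ideal.Quotient.mk I) := by
    refine MvPolynomial.ringHom_ext (fun r => ?_) (fun j => ?_)
    · change k (eval p (C r)) = Ideal.Quotient.mk Q (Ideal.Quotient.mk I (C r))
      rw [eval_C]
      rfl
    · change k (eval p (X j)) = Ideal.Quotient.mk Q (Ideal.Quotient.mk I (X j))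
      rw [eval_X, hp]
  refine ⟨p, fun f hf => ?_, fun i => ?_⟩
  · refine hkinj ?_
    have h1 : k (eval p f) = Ideal.Quotient.mk Q (Ideal.Quotient.mk I f) := RingHom.congr_fun hev f
    rw [h1, Ideal.Quotient.eq_zero_iff_mem.2 hf, map_zero, map_zero]
  · refine hkinj ?_
    have h1 : k (eval p (ψ (X i))) = Ideal.Quotient.mk Q (Ideal.Quotient.mk I (ψ (X i))) :=
      RingHom.congr_fun hev (ψ (X i))
    have h2 : k (eval 0 (X i)) = Ideal.Quotient.mk Q (Ideal.Quotient.mk I (ψ (X i))) :=
      RingHom.congr_fun hkφ (X i)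
    rw [h1, ← h2, eval_X]
    rfl

theorem t_PROJ : S_PROJ := by
  intro L _ _ M d I hI hd hM ⟨h, hhI, hh0⟩
  have hAdom : IsDomain (MvPolynomial (Fin (M + 1)) L ⧸ I) := Ideal.Quotient.isDomain I
  obtain ⟨c, hc0, hc⟩ := exists_rel M d (fun j => Ideal.Quotient.mk I (X j)) hd hM
  have hne : h ≠ 0 := by
    rintro rfl
    exact hh0 (map_zero _)
  have hprod : homogeneousComponent h.totalDegree h * c * X 0 ≠ 0 :=
    mul_ne_zero (mul_ne_zero (top_ne h hne) hc0) (X_ne_zero 0)
  obtain ⟨v, hv⟩ : ∃ v : Fin (M + 1) → L, eval v (homogeneousComponent h.totalDegree h * c * X 0) ≠ 0 := by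
    by_contra hcon
    push Not at hcon
    refine hprod (MvPolynomial.funext fun x => ?_)
    rw [hcon x, map_zero]
  rw [map_mul, map_mul, eval_X] at hv
  have hv0 : v 0 ≠ 0 := right_ne_zero_of_mul hv
  have hvt : eval v (homogeneousComponent h.totalDegree h) ≠ 0 := left_ne_zero_of_mul (left_ne_zero_of_mul hv)
  have hvc : eval v c ≠ 0 := right_ne_zero_of_mul (left_ne_zero_of_mul hv)
  let cm : Fin M → Fin (M + 1) → L := fun i => Fin.cases (-(v i.succ / v 0)) (fun j => if j = i then 1 else 0)
  set ψ : MvPolynomial (Fin M) L →ₐ[L] MvPolynomial (Fin (M + 1)) L :=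
    MvPolynomial.aeval (fun i : Fin M => ∑ j, MvPolynomial.C (cm i j) *
        (MvPolynomial.X j : MvPolynomial (Fin (M + 1)) L)) with hψdef
  have hψ : ∀ i, ψ (X i) = X i.succ - C (v i.succ / v 0) * X 0 := fun i => by
    rw [hψdef, aeval_X, Fin.sum_univ_succ]
    have h1 : ∀ j : Fin M, (C (cm i j.succ) * X j.succ : MvPolynomial (Fin (M + 1)) L) =
        if j = i then X j.succ else 0 := fun j => by
      change C (if j = i then (1 : L) else 0) * X j.succ = _
      by_cases hj : j = i
      · rw [if_pos hj, if_pos hj, C_1, one_mul]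
      · rw [if_neg hj, if_neg hj, C_0, zero_mul]
    rw [Finset.sum_congr rfl fun j _ => h1 j, Finset.sum_ite_eq' Finset.univ i, if_pos (Finset.mem_univ i)]
    change C (-(v i.succ / v 0)) * X 0 + X i.succ = _
    rw [C_neg]
    ring
  have hint := proj_int I h hhI v hv0 hvt ψ hψ
  refine ⟨cm, ?_, ?_⟩
  · have hinj : Function.Injective (Ideal.quotientMapₐ I ψ (le_refl (I.comap ψ))) :=
      Ideal.quotientMap_injective
    have hint2 : ((Ideal.quotientMapₐ I ψ (le_refl (I.comap ψ)) :
        (MvPolynomial (Fin M) L ⧸ I.comap ψ) →ₐ[L] (MvPolynomial (Fin (M + 1)) L ⧸ I)) :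
          (MvPolynomial (Fin M) L ⧸ I.comap ψ) →+* (MvPolynomial (Fin (M + 1)) L ⧸ I)).IsIntegral := by
      intro x
      obtain ⟨P, hP, hP0⟩ := hint x
      refine ⟨P.map (Ideal.Quotient.mk (I.comap ψ)), hP.map _, ?_⟩
      rw [Polynomial.eval₂_map, ← hP0]
      rfl
    have h1 := trdeg_int _ hinj hint2
    exact h1.trans hd
  · by_contra hcon
    push Not at hcon
    obtain ⟨p, hp, hp0⟩ := exists_zero I ψ hint hcon
    have hpv : ∀ j, p j = p 0 / v 0 * v j := fun j => by
      refine Fin.cases ?_ (fun i => ?_) j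
      · field_simp
      · have h1 := hp0 i
        rw [hψ, map_sub, map_mul, eval_X, eval_X, eval_C, sub_eq_zero] at h1
        rw [h1]
        field_simp
    have hs : p 0 / v 0 ≠ 0 := by
      intro hs0
      have hp00 : p = 0 := funext fun j => by
        rw [hpv j, hs0, zero_mul]
        rfl
      exact hh0 (hp00 ▸ hp h hhI)
    let ev : (MvPolynomial (Fin (M + 1)) L ⧸ I) →+* L := Ideal.Quotient.lift I (eval p) fun f hf => hp f hf
    have h2 : ((Polynomial.eval₂RingHom ev (p 0 / v 0)⁻¹).comp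
        ((aeval (fun i => Polynomial.C (Ideal.Quotient.mk I (X i)) * Polynomial.X) :
          MvPolynomial (Fin (M + 1)) L →ₐ[L] Polynomial (MvPolynomial (Fin (M + 1)) L ⧸ I)) :
            MvPolynomial (Fin (M + 1)) L →+* Polynomial (MvPolynomial (Fin (M + 1)) L ⧸ I))) = eval v := by
      refine MvPolynomial.ringHom_ext (fun r => ?_) (fun j => ?_)
      · rw [RingHom.comp_apply, RingHom.coe_coe, aeval_C, Polynomial.algebraMap_apply,
          Polynomial.coe_eval₂RingHom, Polynomial.eval₂_C, eval_C]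
        change ev (Ideal.Quotient.mk I (C r)) = r
        rw [Ideal.Quotient.lift_mk, eval_C]
      · rw [RingHom.comp_apply, RingHom.coe_coe, aeval_X, Polynomial.coe_eval₂RingHom, Polynomial.eval₂_mul,
          Polynomial.eval₂_C, Polynomial.eval₂_X, Ideal.Quotient.lift_mk, eval_X, eval_X, hpv j, mul_comm,
          ← mul_assoc, inv_mul_cancel₀ hs, one_mul]
    have h3 := RingHom.congr_fun h2 c
    refine hvc ?_
    rw [← h3, RingHom.comp_apply, RingHom.coe_coe, hc, map_zero]

end Pool.Agent.Q198.WD
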